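import Mathlib
import Pool.Agent.H4.CosSum

namespace Pool.Agent.Results.MP_34e3ac_co.Answer

open Finset Matrix Polynomial Polynomial.Chebyshev Function Pool.Agent.H4.CosSum

/-- Partitions with at most `m` parts, each at most `n`, ordered componentwise. -/
def L (m n : ℕ) : Type := {l : Fin m → Fin (n + 1) // Antitone l}

instance (m n : ℕ) : PartialOrder (L m n) := inferInstanceAs (PartialOrder (Subtype _))
noncomputable instance (m n : ℕ) : Fintype (L m n) := by
  classical exact inferInstanceAs (Fintype (Subtype _))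
instance (m n : ℕ) : DecidableEq (L m n) := inferInstanceAs (DecidableEq (Subtype _))

open Classical in
/-- The adjacency matrix of the Hasse diagram of `L m n`. -/
noncomputable def A (m n : ℕ) : Matrix (L m n) (L m n) ℝ :=
  of fun a b => if a ⋖ b ∨ b ⋖ a then 1 else 0

variable {m n : ℕ}

def x (a : L m n) (i : Fin m) : ℤ := (a.1 i : ℕ) + (m - 1 - i)

lemma le_iff {a b : L m n} : a ≤ b ↔ ∀ i, x a i ≤ x b i :=
  forall_congr' fun i => by simp [x]

lemma x_inj {a b : L m n} (h : x a = x b) : a = b :=
  le_antisymm (le_iff.2 fun i => (congrFun h i).le) (le_iff.2 fun i => (congrFun h i).ge)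

lemma x_anti (a : L m n) : StrictAnti (x a) := fun i j h => by
  have : (a.1 j : ℕ) ≤ a.1 i := a.2 h.le
  have : (i : ℕ) < j := h
  simp only [x]; omega

lemma x_bd (a : L m n) (i : Fin m) : 0 ≤ x a i ∧ x a i < m + n := by
  have := (a.1 i).2; have := i.2; simp only [x]; omega

lemma x_surj (y : Fin m → ℤ) (h : StrictAnti y) (hb : ∀ i, 0 ≤ y i ∧ y i < m + n) :
    ∃ b : L m n, x b = y := by
  have g : ∀ d (i : ℕ) (hi : i + d < m), y ⟨i + d, hi⟩ + d ≤ y ⟨i, by omega⟩ := by
    intro d i
    induction d with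
    | zero => simp
    | succ d ih =>
      intro hi
      have := ih (by omega)
      have := h (show (⟨i + d, by omega⟩ : Fin m) < ⟨i + (d + 1), hi⟩ from Nat.lt_succ_self _)
      push_cast; omega
  have g' : ∀ i j : Fin m, i ≤ j → y j + j ≤ y i + i := fun i j hij => by
    have h1 : (i : ℕ) ≤ j := hij
    have := g (j - i) i (by omega)
    simp only [Nat.add_sub_cancel' h1, Fin.eta] at this
    omega
  have lo : ∀ i : Fin m, 0 ≤ y i - (m - 1 - i) ∧ y i - (m - 1 - i) ≤ n := fun i => by
    have := i.2
    have a := g' i ⟨m - 1, by omega⟩ (by rw [Fin.le_def]; simp only; omega)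
    have b := g' ⟨0, by omega⟩ i (by rw [Fin.le_def]; simp)
    have := hb ⟨m - 1, by omega⟩
    have := hb ⟨0, by omega⟩
    simp only at a b
    omega
  refine ⟨⟨fun i => ⟨(y i - (m - 1 - i)).toNat, by have := lo i; omega⟩, fun i j hij => ?_⟩, ?_⟩
  · have := g' i j hij
    rw [Fin.le_def]; simp only; omega
  · ext i; have := lo i; simp only [x]; omega

lemma cov {a b : L m n} : a ⋖ b ↔ ∃ i, x b = update (x a) i (x a i + 1) := by
  constructor
  · intro h
    have hle := le_iff.1 h.le
    have ne : (univ.filter (fun i => x a i < x b i)).Nonempty := by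
      by_contra hh
      refine h.lt.not_ge (le_iff.2 fun i => not_lt.1 fun hi => hh ⟨i, by simpa using hi⟩)
    set i := min' _ ne
    have hi : x a i < x b i := (mem_filter.1 (min'_mem _ ne)).2
    have hu : ∀ j, update (x a) i (x a i + 1) j ≤ x b j := fun j => by
      rw [update_apply]; split_ifs with e
      · rw [e]; omega
      · exact hle j
    have hl : ∀ j, x a j ≤ update (x a) i (x a i + 1) j := fun j => by
      rw [update_apply]; split_ifs with e
      · rw [e]; omega
      · rfl
    obtain ⟨c, hc⟩ := x_surj (n := n) (update (x a) i (x a i + 1)) (fun j k hjk => by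
      by_cases e : k = i
      · have : ¬x a j < x b j := fun hj =>
          (min'_le _ j (by simpa using hj)).not_gt (show j < i from e ▸ hjk)
        have := x_anti b hjk
        have := hu k
        have := hl j
        omega
      · rw [update_of_ne e]; exact (x_anti a hjk).trans_le (hl j))
      (fun j => ⟨(x_bd a j).1.trans (hl j), (hu j).trans_lt (x_bd b j).2⟩)
    refine ⟨i, ?_⟩
    rcases h.eq_or_eq (c := c) (le_iff.2 (hc ▸ hl)) (le_iff.2 (hc ▸ hu)) with e | e
    · have := congrFun hc i
      simp [e] at this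
    · rw [← e, hc]
  · rintro ⟨i, hi⟩
    have hi' : ∀ j, x b j = if j = i then x a j + 1 else x a j := fun j => by
      rw [hi, update_apply]; split_ifs with e <;> simp [*]
    refine covBy_of_eq_or_eq (lt_of_le_of_ne (le_iff.2 fun j => by rw [hi']; split_ifs <;> omega)
      (by rintro rfl; simpa using hi' i)) fun c h1 h2 => ?_
    have h1 := le_iff.1 h1
    have h2 := le_iff.1 h2
    by_cases e : x c i = x a i
    · left; apply x_inj; ext j
      have := h1 j; have := h2 j; have := hi' j
      split_ifs at this with e'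
      · rw [e', e]
      · omega
    · right; apply x_inj; ext j
      have := h1 j; have := h2 j; have := hi' j
      split_ifs at this with e'
      · subst e'; omega
      · omega

def mv (y : Fin m → ℤ) (p : Fin m × Bool) : Fin m → ℤ :=
  update y p.1 (if p.2 then y p.1 + 1 else y p.1 - 1)

lemma mv_inj (y : Fin m → ℤ) : Injective (mv y) := by
  rintro ⟨i, s⟩ ⟨j, t⟩ h
  have := congrFun h i
  simp only [mv, update_self, update_apply] at this
  by_cases e : i = j
  · subst e; cases s <;> cases t <;> simp at this ⊢ <;> omega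
  · cases s <;> simp [e] at this

lemma adj {a b : L m n} : (a ⋖ b ∨ b ⋖ a) ↔ ∃ p, x b = mv (x a) p := by
  simp only [cov, Prod.exists, Bool.exists_bool, mv, exists_or]
  rw [or_comm]
  refine or_congr (exists_congr fun i => ?_) (by simp)
  constructor <;> intro h <;> simp [h]

noncomputable def F (c : Fin m → ℂ) (y : Fin m → ℤ) : ℂ := det (of fun i j => (S ℂ (y i)).eval (c j))

lemma F_sum (c : Fin m → ℂ) (y : Fin m → ℤ) : ∑ p, F c (mv y p) = (∑ j, c j) * F c y := by
  have : ∀ i s, F c (mv y (i, s)) = ∑ σ : Equiv.Perm (Fin m), Equiv.Perm.sign σ *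
      ((S ℂ (if s then y i + 1 else y i - 1)).eval (c (σ i)) *
        ∏ k ∈ univ.erase i, (S ℂ (y k)).eval (c (σ k))) := by
    intro i s
    rw [F, ← det_transpose, det_apply']
    refine sum_congr rfl fun σ _ => ?_
    rw [← mul_prod_erase _ _ (mem_univ i)]
    simp only [transpose_apply, of_apply, mv, update_self]
    congr 2
    exact prod_congr rfl fun k hk => by rw [update_of_ne (ne_of_mem_erase hk)]
  rw [Fintype.sum_prod_type]
  simp only [Fintype.sum_bool, this, ← sum_add_distrib]
  rw [sum_comm, F, ← det_transpose, det_apply', mul_sum]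
  refine sum_congr rfl fun σ _ => ?_
  rw [← Equiv.sum_comp σ c, sum_mul]
  refine sum_congr rfl fun i _ => ?_
  rw [← mul_prod_erase _ _ (mem_univ i)]
  simp [S_add_one]
  ring

lemma eig (c : Fin m → ℂ) (hc : ∀ j, (S ℂ (m + n)).eval (c j) = 0) (a : L m n) :
    ∑ b, (A m n a b : ℂ) * F c (x b) = (∑ j, c j) * F c (x a) := by
  classical
  have e : ∀ b, (A m n a b : ℂ) * F c (x b) = ∑ p, if x b = mv (x a) p then F c (x b) else 0 := by
    intro b
    simp only [A, of_apply, adj]
    split_ifs with h
    · obtain ⟨p, hp⟩ := h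
      rw [sum_eq_single p (fun q _ hq => if_neg fun e => hq (mv_inj _ (e.symm.trans hp)))
        (by simp), if_pos hp]; simp
    · rw [sum_eq_zero fun p _ => if_neg fun e => h ⟨p, e⟩]; simp
  rw [← F_sum, sum_congr rfl fun b _ => e b, sum_comm]
  refine sum_congr rfl fun p _ => ?_
  by_cases h : ∃ b : L m n, x b = mv (x a) p
  · obtain ⟨b, hb⟩ := h
    rw [sum_eq_single b (fun q _ hq => if_neg fun e => hq (x_inj (e.trans hb.symm))) (by simp),
      if_pos hb, hb]
  rw [sum_eq_zero fun b _ => if_neg fun e => h ⟨b, e⟩]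
  by_contra h0
  have near : ∀ i, x a i - 1 ≤ mv (x a) p i ∧ mv (x a) p i ≤ x a i + 1 ∧
      (i ≠ p.1 → mv (x a) p i = x a i) := fun i => by
    simp only [mv, update_apply]; split_ifs with e <;> simp [*] <;> omega
  refine h (x_surj _ (fun i j hij => lt_of_le_of_ne ?_ fun e => ?_) fun i => ?_)
  · have := near i; have := near j; have := x_anti a hij
    by_cases e : i = p.1
    · have : j ≠ p.1 := e ▸ hij.ne'
      omega
    · omega
  · exact h0 (det_zero_of_row_eq hij.ne (by ext k; simp [e])).symm
  · have := near i; have := x_bd a i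
    have n1 : mv (x a) p i ≠ -1 := fun e =>
      h0 (det_eq_zero_of_row_eq_zero i (fun k => by simp [e])).symm
    have n2 : mv (x a) p i ≠ m + n := fun e =>
      h0 (det_eq_zero_of_row_eq_zero i (fun k => by simp [e, hc])).symm
    omega

lemma S_mon (k : ℕ) : (S ℂ k).Monic ∧ (S ℂ k).natDegree = k := by
  induction k using Nat.twoStepInduction with
  | zero => simp
  | one => simp
  | more k h0 h1 =>
    have e : S ℂ ((k + 2 : ℕ) : ℤ) = X * S ℂ ((k + 1 : ℕ) : ℤ) - S ℂ k := by
      push_cast; exact S_add_two ℂ k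
    have mo := (monic_X (R := ℂ)).mul h1.1
    have dg : (X * S ℂ ((k + 1 : ℕ) : ℤ)).natDegree = k + 2 := by
      rw [monic_X.natDegree_mul h1.1, h1.2, natDegree_X]; ring
    have lt : (S ℂ k).natDegree < (X * S ℂ ((k + 1 : ℕ) : ℤ)).natDegree := by omega
    rw [e]
    exact ⟨mo.sub_of_left (degree_lt_degree lt), by rw [natDegree_sub_eq_left_of_natDegree_lt lt, dg]⟩

lemma vdm {k : ℕ} (c : Fin k → ℂ) (hc : Injective c) :
    det (of fun i j : Fin k => (S ℂ (j : ℕ)).eval (c i)) ≠ 0 := by
  rw [← det_eval_matrixOfPolynomials_eq_det_vandermonde c (fun j => S ℂ (j : ℕ))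
    (fun j => (S_mon j).2) (fun j => (S_mon j).1)]
  exact det_vandermonde_ne_zero_iff.2 hc

lemma S_c {z : ℂ} (hz : z ≠ 0) (k : ℕ) :
    (S ℂ k).eval (z + z⁻¹) * (z - z⁻¹) = z ^ (k + 1) - z⁻¹ ^ (k + 1) := by
  induction k using Nat.twoStepInduction with
  | zero => simp
  | one => simp; ring
  | more k h0 h1 =>
    have e : S ℂ ((k + 2 : ℕ) : ℤ) = X * S ℂ ((k + 1 : ℕ) : ℤ) - S ℂ k := by
      push_cast; exact S_add_two ℂ k
    have := mul_inv_cancel₀ hz
    rw [e, eval_sub, eval_mul, eval_X]
    linear_combination (z + z⁻¹) * h1 - h0 + (z ^ (k + 1) - z⁻¹ ^ (k + 1)) * this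

variable {N : ℕ} {ζ : ℂ}

lemma c_inj (h : IsPrimitiveRoot ζ (2 * (N + 1))) {k l : ℕ} (hk : k ≤ N + 1) (hl : l ≤ N)
    (e : c ζ k = c ζ l) : k = l := by
  have z0 := h.ne_zero (by omega)
  have : (ζ ^ k - ζ ^ l) * (ζ ^ (k + l) - 1) = 0 := by
    simp only [c, inv_pow] at e
    have a := mul_inv_cancel₀ (pow_ne_zero k z0)
    have b := mul_inv_cancel₀ (pow_ne_zero l z0)
    linear_combination ζ ^ k * ζ ^ l * e - ζ ^ l * a + ζ ^ k * b
  rcases mul_eq_zero.1 this with t | t
  · exact h.pow_inj (by omega) (by omega) (sub_eq_zero.1 t)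
  · have := Nat.eq_zero_of_dvd_of_lt (h.dvd_of_pow_eq_one _ (sub_eq_zero.1 t)) (by omega)
    omega

lemma c_root (h : IsPrimitiveRoot ζ (2 * (N + 1))) {k : ℕ} (h1 : 1 ≤ k) (h2 : k ≤ N) :
    (S ℂ N).eval (c ζ k) = 0 := by
  have z0 := pow_ne_zero k (h.ne_zero (by omega))
  have := S_c z0 N
  have e : ((ζ ^ k) ^ (N + 1)) * (ζ ^ k) ^ (N + 1) = 1 := by
    rw [← pow_add, ← two_mul, ← pow_mul, mul_comm k, pow_mul, h.pow_eq_one, one_pow]
  rw [inv_pow, ← eq_inv_of_mul_eq_one_left e, sub_self] at this
  rw [c, inv_pow]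
  refine (mul_eq_zero.1 this).resolve_right fun t => ?_
  have : ζ ^ (2 * k) = 1 := by
    rw [two_mul, pow_add]; nth_rw 1 [sub_eq_zero.1 t]; exact inv_mul_cancel₀ z0
  have := Nat.le_of_dvd (by omega) (h.dvd_of_pow_eq_one _ this)
  omega

theorem result (m n : ℕ) (hm : 1 ≤ m) (hn : 1 ≤ n) :
    (A m n).det ≠ 0 ↔ Odd m ∧ Odd n ∧ min m n < (m + n + 1).minFac := by
  classical
  have h := Complex.isPrimitiveRoot_exp (2 * (m + n + 1)) (by omega)
  set ζ := Complex.exp (2 * Real.pi * Complex.I / (2 * (m + n + 1) : ℕ))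
  have cr : ∀ k, 1 ≤ k → k ≤ m + n → (S ℂ (m + n)).eval (c ζ k) = 0 := fun k h1 h2 => by
    simpa using c_root h h1 h2
  have dm : (A m n).det ≠ 0 ↔ ((A m n).map ((↑) : ℝ → ℂ)).det ≠ 0 := by
    rw [show (A m n).map ((↑) : ℝ → ℂ) = Complex.ofRealHom.mapMatrix (A m n) from rfl,
      ← RingHom.map_det]; simp
  rw [← cos_iff hm hn h, dm, Ne]
  constructor
  · intro hd T hT hc h0
    set k := T.orderEmbOfFin hc
    have hk : ∀ j, 1 ≤ k j ∧ k j ≤ m + n := fun j => mem_Icc.1 (hT (T.orderEmbOfFin_mem hc j))
    refine hd (exists_mulVec_eq_zero_iff.1 ⟨fun b => F (fun j => c ζ (k j)) (x b), fun v0 => ?_, ?_⟩)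
    · have := congrFun v0 ⟨fun _ => 0, antitone_const⟩
      refine vdm (fun j => c ζ (k j)) (fun i j e =>
        k.injective (c_inj h (by have := hk i; omega) (hk j).2 e)) ?_
      suffices hs : det ((of fun i j : Fin m => (S ℂ (j : ℕ)).eval (c ζ (k i)))ᵀ.submatrix
          Fin.revPerm id) = 0 by
        rw [det_permute, det_transpose] at hs
        exact (mul_eq_zero.1 hs).resolve_left (by simp)
      refine Eq.trans ?_ this
      rw [F]
      congr 1
      ext i j
      have := i.2
      simp only [x, submatrix_apply, transpose_apply, of_apply, Fin.revPerm_apply, Fin.val_rev, id]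
      congr 2
      simp; omega
    · ext a
      have : ∑ j, c ζ (k j) = 0 := by
        rw [← h0, ← T.map_orderEmbOfFin_univ hc, sum_map]; rfl
      have e := eig (fun j => c ζ (k j)) (fun j => cr _ (hk j).1 (hk j).2) a
      rw [this, zero_mul] at e
      exact e
  · intro H hd
    obtain ⟨v, v0, hv⟩ := exists_vecMul_eq_zero_iff.2 hd
    set U : Matrix (Fin (m + n)) (Fin (m + n)) ℂ := of fun i j => (S ℂ (j : ℕ)).eval (c ζ (i + 1))
    have ci : Injective fun i : Fin (m + n) => c ζ (i + 1) := fun i j e =>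
      Fin.ext (by have := c_inj h (by omega) (by omega) e; omega)
    have hU : LinearIndependent ℂ U.row :=
      linearIndependent_rows_iff_isUnit.2 ((isUnit_iff_isUnit_det _).2 (vdm _ ci).isUnit)
    haveI : Nonempty (Fin (m + n)) := ⟨⟨0, by omega⟩⟩
    let B := basisOfLinearIndependentOfCardEqFinrank hU (by simp)
    let X' : L m n → Fin m → Fin (m + n) := fun a i => ⟨(x a i).toNat, by have := x_bd a i; omega⟩
    have hX : ∀ a i, ((X' a i : ℕ) : ℤ) = x a i := fun a i => by
      have := x_bd a i; simp only [X']; omega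
    let Φ : MultilinearMap ℂ (fun _ : Fin m => Fin (m + n) → ℂ) ℂ :=
      ∑ a, v a • (detRowAlternating (n := Fin m) (R := ℂ)).toMultilinearMap.compLinearMap
        (fun _ => LinearMap.funLeft ℂ ℂ (X' a))
    have hΦ : ∀ w, Φ w = ∑ a, v a * det (of fun j i => w j (X' a i)) := fun w => by
      simp only [Φ, MultilinearMap.sum_apply, MultilinearMap.smul_apply, smul_eq_mul]; rfl
    have Φ0 : Φ = 0 := by
      refine Module.Basis.ext_multilinear (fun _ => B) fun k => ?_
      have e : ∀ a, det (of fun j i => B (k j) (X' a i)) = F (fun j => c ζ (k j + 1)) (x a) := by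
        intro a
        rw [F, ← det_transpose]
        congr 1; ext i j
        simp [B, U, hX]
      rw [hΦ, MultilinearMap.zero_apply]
      simp only [e]
      by_cases hk : Injective k
      · have inj : Injective fun j => (k j : ℕ) + 1 := fun i j e =>
          hk (Fin.ext (Nat.succ_injective e))
        have := H (univ.image fun j => (k j : ℕ) + 1) (fun t ht => by
          obtain ⟨j, -, rfl⟩ := mem_image.1 ht
          have := (k j).2; rw [mem_Icc]; omega) (by rw [card_image_of_injective _ inj]; simp)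
        rw [sum_image inj.injOn] at this
        apply mul_left_cancel₀ this
        rw [mul_zero, mul_sum]
        have e2 := fun a => eig (n := n) (fun j => c ζ (k j + 1))
          (fun j => cr _ (by omega) (by have := (k j).2; omega)) a
        simp only [mul_left_comm _ (v _), ← e2, mul_sum]
        rw [sum_comm]
        refine sum_eq_zero fun b _ => ?_
        have := congrFun hv b
        simp only [vecMul, dotProduct, map_apply, Pi.zero_apply] at this
        simp only [← mul_assoc, ← sum_mul, this, zero_mul]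
      · obtain ⟨i, j, e, ne⟩ := not_injective_iff.1 hk
        exact sum_eq_zero fun a _ => by
          rw [F, det_zero_of_column_eq ne (fun r => by simp [e]), mul_zero]
    apply v0
    ext b
    have := hΦ fun j => Pi.single (X' b j) 1
    rw [Φ0, MultilinearMap.zero_apply, sum_eq_single b (fun a _ ne => ?_) (by simp)] at this
    · have e : (of fun j i => (Pi.single (X' b j) 1 : Fin (m + n) → ℂ) (X' b i)) = 1 := by
        ext j i
        have : X' b i = X' b j ↔ j = i :=
          ⟨fun e => (x_anti b).injective (by rw [← hX, ← hX, e]), fun e => by rw [e]⟩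
        simp [Pi.single_apply, one_apply, this]
      rw [e] at this
      simpa using this.symm
    · by_contra h0
      have sub : ∀ i, ∃ j, x b j = x a i := fun i => by
        by_contra hh
        refine h0 (by
          rw [det_eq_zero_of_column_eq_zero i (fun j => ?_), mul_zero]
          exact Pi.single_eq_of_ne (fun e => hh ⟨j, by rw [← hX, ← hX, e]⟩) _)
      have eq : univ.image (x a) = univ.image (x b) := eq_of_subset_of_card_le
        (fun t ht => by
          obtain ⟨i, -, rfl⟩ := mem_image.1 ht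
          exact mem_image.2 ((sub i).imp fun j hj => ⟨mem_univ _, hj⟩))
        (by rw [card_image_of_injective _ (x_anti a).injective,
          card_image_of_injective _ (x_anti b).injective])
      refine ne (x_inj (((x_anti a).range_inj (x_anti b)).1 ?_))
      simpa using congrArg (fun s : Finset ℤ => (s : Set ℤ)) eq

end Pool.Agent.Results.MP_34e3ac_co.Answer
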